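import Pool.Agent.U19.TD.Main

/-!
# TDS-EQ: the reduction is computable in polynomial time, and the problem is in NP
-/

namespace Pool.Agent.NPC.U19.TD

open Pool.Agent.H622R2 (ddup mem_ddup ddup_nodup ddup_poly)

@[fun_prop]
theorem poly_natPair {α : Type} [TEnc α] {f g : α → ℕ} (hf : Poly f) (hg : Poly g) :
    Poly (fun a => Nat.pair (f a) (g a)) := by
  unfold Nat.pair
  fun_prop

@[fun_prop]
theorem poly_cod {α : Type} [TEnc α] {f : α → Nm} (hf : Poly f) :
    Poly (fun a => cod (f a)) := by
  unfold cod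
  fun_prop

@[fun_prop]
theorem poly_sg {α : Type} [TEnc α] {f : α → Bool} (hf : Poly f) :
    Poly (fun a => sg (f a)) := by
  unfold sg
  fun_prop

@[fun_prop]
theorem poly_range3 {α β : Type} [TEnc α] [TEnc β] {l : α → List β} (hl : Poly l) :
    Poly (fun a => List.range (3 * (l a).length)) :=
  (UPoly.mul (UPoly.const 3) (UPoly.length hl)).range

@[fun_prop]
theorem poly_range_length {α β : Type} [TEnc α] [TEnc β] {l : α → List β} (hl : Poly l) :
    Poly (fun a => List.range (l a).length) :=
  (UPoly.length hl).range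

theorem upoly_bt {α : Type} [TEnc α] {l : α → List Cl} (hl : Poly l) :
    UPoly (fun a => bt (l a)) :=
  UPoly.mul (UPoly.mul (UPoly.const 3) (UPoly.length hl)) (UPoly.add (UPoly.length hl) (UPoly.const 1))

theorem upoly_bl {α : Type} [TEnc α] {l : α → List Cl} (hl : Poly l) :
    UPoly (fun a => bl (l a)) :=
  UPoly.add (UPoly.add (upoly_bt hl) (UPoly.length hl)) (UPoly.const 1)

@[fun_prop]
theorem poly_range_bt {α : Type} [TEnc α] {l : α → List Cl} (hl : Poly l) :
    Poly (fun a => List.range (bt (l a))) := (upoly_bt hl).range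

@[fun_prop]
theorem poly_range_bl {α : Type} [TEnc α] {l : α → List Cl} (hl : Poly l) :
    Poly (fun a => List.range (bl (l a))) := (upoly_bl hl).range

attribute [fun_prop] ddup_poly

attribute [local irreducible] bt bl

theorem poly_vs : Poly vs := by
  unfold vs
  fun_prop

theorem poly_es : Poly es := by
  unfold es
  fun_prop

theorem poly_red : Poly red := by
  unfold red
  have h1 := poly_vs
  have h2 := poly_es
  have h : (Prod.map cod cod) = fun p : Nm × Nm => (cod p.1, cod p.2) := rfl
  rw [h]
  fun_prop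

theorem hardPr_eq : HardPr IsInst (fun I : Inst => gammaT I.1 I.2 = subT I.1 I.2) :=
  hardPr_SAT3b.trans poly_red (fun _ h => isInst_red h.2.1 h.2.2)
    (fun _ h => red_correct h.2.1 h.2.2)

theorem hard_tdsEq : NPHardP TdsEq := by
  have h : HardPr IsInst TdsEq :=
    hardPr_eq.trans Poly.id (fun _ h => h)
      (fun I h => ⟨fun h' => ⟨h, h'⟩, fun h' => h'.2⟩)
  exact h.toHardI.toNPHardP

/-! ### Membership in NP -/

/-- adjacency, as a Boolean -/
def adjB (E : List (ℕ × ℕ)) (u v : ℕ) : Bool := decide ((u, v) ∈ E) || decide ((v, u) ∈ E)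

theorem adjB_iff (E : List (ℕ × ℕ)) (u v : ℕ) : adjB E u v = true ↔ Adj E u v := by
  unfold adjB Adj
  simp

theorem adjB_eq (E : List (ℕ × ℕ)) (u v : ℕ) : decide (Adj E u v) = adjB E u v := by
  rw [Bool.eq_iff_iff, decide_eq_true_eq, adjB_iff]

@[fun_prop]
theorem poly_adjB {α : Type} [TEnc α] {E : α → List (ℕ × ℕ)} {u v : α → ℕ} (hE : Poly E)
    (hu : Poly u) (hv : Poly v) : Poly (fun a => adjB (E a) (u a) (v a)) := by
  unfold adjB
  fun_prop

/-- the list of the degrees -/
def degs (I : Inst) : List ℕ :=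
  I.1.map (fun v => (I.1.filter (fun w => adjB I.2 v w)).length)

theorem degs_eq (I : Inst) : degs I = I.1.map (deg I.1 I.2) := by
  unfold degs deg
  simp only [adjB_eq]

@[fun_prop]
theorem poly_degs {α : Type} [TEnc α] {I : α → Inst} (hI : Poly I) :
    Poly (fun a => degs (I a)) := by
  unfold degs
  fun_prop

/-- the list is sorted in non-increasing order -/
def sortedB (d : List ℕ) : Bool := (d.zip d.tail).all (fun p => decide (p.2 ≤ p.1))

theorem sortedB_iff (d : List ℕ) : sortedB d = true ↔ d.Pairwise (fun a b => b ≤ a) := by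
  unfold sortedB
  induction d with
  | nil => simp
  | cons a d ih =>
    cases d with
    | nil => simp
    | cons b d =>
      have h1 : (a :: b :: d).zip (a :: b :: d).tail =
          (a, b) :: (b :: d).zip (b :: d).tail := by simp
      rw [h1, List.all_cons, Bool.and_eq_true, ih, List.pairwise_cons (a := a), decide_eq_true_eq]
      constructor
      · rintro ⟨h2, h3⟩
        refine ⟨?_, h3⟩
        intro c hc
        rw [List.mem_cons] at hc
        rcases hc with rfl | hc
        · exact h2
        · exact ((List.pairwise_cons.1 h3).1 c hc).trans h2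
      · rintro ⟨h2, h3⟩
        exact ⟨h2 b (by simp), h3⟩

/-- the two lists are permutations of each other -/
def permB (d e : List ℕ) : Bool :=
  (d ++ e).all (fun x => decide ((d.filter (fun y => decide (y = x))).length =
    (e.filter (fun y => decide (y = x))).length))

theorem filter_length_eq_count (d : List ℕ) (x : ℕ) :
    (d.filter (fun y => decide (y = x))).length = d.count x := by
  rw [← List.countP_eq_length_filter, List.count]
  congr 1

theorem permB_iff (d e : List ℕ) : permB d e = true ↔ d.Perm e := by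
  unfold permB
  rw [List.perm_iff_count, List.all_eq_true]
  simp only [decide_eq_true_eq, filter_length_eq_count, List.mem_append]
  constructor
  · intro h x
    by_cases hx : x ∈ d ∨ x ∈ e
    · exact h x hx
    · rw [not_or] at hx
      rw [List.count_eq_zero_of_not_mem hx.1, List.count_eq_zero_of_not_mem hx.2]
  · intro h x _
    exact h x

/-- the instance is well-formed, as a Boolean -/
def isInstB (I : Inst) : Bool :=
  decide (I.1 ≠ []) && (decide (ddup I.1 = I.1) && (decide (ddup I.2 = I.2) &&
  (I.2.all (fun e => decide (e.1 ∈ I.1) && (decide (e.2 ∈ I.1) && (!decide (e.1 = e.2) &&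
    !decide ((e.2, e.1) ∈ I.2)))) &&
    I.1.all (fun v => I.1.any (fun w => adjB I.2 v w)))))

theorem ddup_eq_iff {β : Type} [DecidableEq β] : ∀ l : List β, ddup l = l ↔ l.Nodup
  | [] => by simp [ddup]
  | a :: l => by
    constructor
    · intro h; rw [← h]; exact ddup_nodup _
    · intro h
      rw [List.nodup_cons] at h
      have ih := (ddup_eq_iff l).2 h.2
      unfold ddup at *
      rw [List.foldr_cons, ih, if_neg h.1]

theorem isInstB_iff (I : Inst) : isInstB I = true ↔ IsInst I := by
  unfold isInstB IsInst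
  simp only [Bool.and_eq_true, decide_eq_true_eq, ddup_eq_iff, List.all_eq_true, List.any_eq_true,
    adjB_iff, Bool.not_eq_true', decide_eq_false_iff_not, ne_eq]

theorem map_fst_zip (d S : List ℕ) : (d.zip S).map (fun p => p.1) = d.take S.length := by
  induction d generalizing S with
  | nil => simp
  | cons a d ih =>
    cases S with
    | nil => simp
    | cons b S => simp [ih]

/-- the verifier; the certificate is a total dominating set and the degree sequence -/
def verB (p : Inst × (List ℕ × List ℕ)) : Bool :=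
  isInstB p.1 && (decide (ddup p.2.1 = p.2.1) && (p.2.1.all (fun u => decide (u ∈ p.1.1)) &&
    (p.1.1.all (fun v => p.2.1.any (fun u => adjB p.1.2 v u)) &&
    (permB p.2.2 (degs p.1) && (sortedB p.2.2 &&
      decide (((p.2.2.zip p.2.1.tail).map (fun p => p.1)).sum < p.1.1.length))))))

theorem poly_verB : Poly verB := by
  unfold verB isInstB permB sortedB
  fun_prop

theorem verB_iff (I : Inst) (S d : List ℕ) : verB (I, S, d) = true ↔
    IsInst I ∧ IsTDS I.1 I.2 S ∧ d = degSeq I.1 I.2 ∧
      ((degSeq I.1 I.2).take (S.length - 1)).sum < I.1.length := by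
  unfold verB IsTDS
  simp only [Bool.and_eq_true, isInstB_iff, decide_eq_true_eq, ddup_eq_iff, List.all_eq_true,
    List.any_eq_true, adjB_iff, permB_iff, sortedB_iff, degs_eq, map_fst_zip, List.length_tail]
  constructor
  · rintro ⟨h1, h2, h3, h4, h5, h6, h7⟩
    have h8 := eq_degSeq h5 h6
    subst h8
    exact ⟨h1, ⟨h2, h3, h4⟩, rfl, h7⟩
  · rintro ⟨h1, ⟨h2, h3, h4⟩, rfl, h7⟩
    exact ⟨h1, h2, h3, h4, degSeq_perm _ _, degSeq_sorted _ _, h7⟩

theorem sz_eq_of_perm {β : Type} [TEnc β] {a b : List β} (h : a.Perm b) : sz a = sz b := by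
  induction h with
  | nil => rfl
  | cons x _ ih => simp [ih]
  | swap x y l => simp; omega
  | trans _ _ ih1 ih2 => rw [ih1, ih2]

theorem sz_le_of_sublist {β : Type} [TEnc β] {a b : List β} (h : a.Sublist b) : sz a ≤ sz b := by
  induction h with
  | slnil => exact le_refl _
  | cons x _ ih => simp; omega
  | cons_cons x _ ih => simp; omega

theorem sz_le_of_subperm {β : Type} [TEnc β] {l l' : List β} (h : l.Subperm l') : sz l ≤ sz l' := by
  obtain ⟨m, h1, h2⟩ := h
  rw [← sz_eq_of_perm h1]
  exact sz_le_of_sublist h2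

theorem inNPP_tdsEq : InNPP TdsEq := by
  obtain ⟨p, hp⟩ := (poly_degs (Poly.id (α := Inst))).sz_le
  refine inNPP_of (β := List ℕ × List ℕ) poly_verB (Polynomial.X + p + 1) ?_
  intro I
  simp only [Polynomial.eval_add, Polynomial.eval_X, Polynomial.eval_one]
  constructor
  · rintro ⟨hI, h⟩
    obtain ⟨S, h1, h2⟩ := (eq_iff hI).1 h
    refine ⟨(S, degSeq I.1 I.2), ?_, (verB_iff _ _ _).2 ⟨hI, h1, rfl, h2⟩⟩
    have a1 := sz_le_of_subperm (h1.1.subperm (fun u hu => h1.2.1 u hu))
    have a2 : sz (degSeq I.1 I.2) = sz (degs I) := by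
      rw [degs_eq]
      exact sz_eq_of_perm (degSeq_perm _ _)
    have a3 := hp I
    have a4 : sz I = sz I.1 + sz I.2 + 1 := sz_pair _ _
    rw [sz_pair, a2]
    omega
  · rintro ⟨⟨S, d⟩, -, h⟩
    rw [verB_iff] at h
    obtain ⟨hI, h1, -, h2⟩ := h
    exact ⟨hI, (eq_iff hI).2 ⟨S, h1, h2⟩⟩

theorem decidable_iff :
    (∃ A : List Bool → List Bool, PolyTime A ∧
      ∀ I : Inst, IsInst I → (A (bits I) = [true] ↔ gammaT I.1 I.2 = subT I.1 I.2)) ↔
    ∀ L : Set (List Bool), InNP L → InP L := by
  constructor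
  · rintro ⟨A, hA, hA'⟩ L hL
    obtain ⟨f, hf, hpr, hfL⟩ := hardPr_eq L hL
    refine ⟨fun w => A (bits (f w)), Pool.Agent.H642R2.TMSim.polyTime_comp hA (PC.toPolyTime hf),
      fun w => ?_⟩
    rw [hfL w]
    exact (hA' (f w) (hpr w)).symm
  · intro h
    obtain ⟨A, hA, hA'⟩ := h _ inNPP_tdsEq
    refine ⟨A, hA, fun I hI => ?_⟩
    rw [← hA', bits_mem_lang]
    exact ⟨fun h => h.2, fun h => ⟨hI, h⟩⟩

end Pool.Agent.NPC.U19.TD
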