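import Pool.Agent.U19.TD.Defs

/-!
# General facts about the two numbers
-/

namespace Pool.Agent.NPC.U19.TD

theorem degSeq_perm {α : Type} [DecidableEq α] (V : List α) (E : List (α × α)) :
    (degSeq V E).Perm (V.map (deg V E)) := List.mergeSort_perm _ _

theorem degSeq_sorted {α : Type} [DecidableEq α] (V : List α) (E : List (α × α)) :
    (degSeq V E).Pairwise (fun a b => b ≤ a) := by
  have h := List.pairwise_mergeSort (le := fun a b : ℕ => decide (b ≤ a))
    (fun a b c h1 h2 => by simp only [decide_eq_true_eq] at *; omega)
    (fun a b => by simp only [Bool.or_eq_true, decide_eq_true_eq]; omega) (V.map (deg V E))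
  unfold degSeq
  exact h.imp (fun h => by simpa using h)

/-- a sorted list which is a permutation of the list of degrees is the degree sequence -/
theorem eq_degSeq {α : Type} [DecidableEq α] {V : List α} {E : List (α × α)} {d : List ℕ}
    (h1 : d.Perm (V.map (deg V E))) (h2 : d.Pairwise (fun a b => b ≤ a)) : d = degSeq V E := by
  have hp : d.Perm (degSeq V E) := h1.trans (degSeq_perm V E).symm
  exact hp.eq_of_pairwise (fun a b _ _ h1 h2 => le_antisymm h2 h1) h2 (degSeq_sorted V E)

theorem sum_le_take {d : List ℕ} (hd : d.Pairwise (fun a b => b ≤ a)) {s : List ℕ} {k : ℕ}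
    (hs : s.Subperm d) (hk : s.length ≤ k) : s.sum ≤ (d.take k).sum := by
  induction d generalizing s k with
  | nil =>
    rw [List.subperm_nil] at hs
    subst hs
    simp
  | cons a d ih =>
    cases k with
    | zero =>
      have : s = [] := List.length_eq_zero_iff.1 (by omega)
      subst this
      simp
    | succ k =>
      rw [List.pairwise_cons] at hd
      rw [List.take_succ_cons, List.sum_cons]
      by_cases ha : a ∈ s
      · have h1 : (s.erase a).Subperm d := by
          have := hs.erase a
          simpa using this
        have h2 : (s.erase a).length ≤ k := by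
          rw [List.length_erase_of_mem ha]
          omega
        have h3 := ih hd.2 h1 h2
        have h4 : s.sum = a + (s.erase a).sum := by
          rw [(List.perm_cons_erase ha).sum_eq, List.sum_cons]
        omega
      · have h1 : s.Subperm d := by
          have := hs.erase a
          rw [List.erase_of_not_mem ha] at this
          simpa using this
        cases s with
        | nil => simp
        | cons b s =>
          have hb : b ∈ d := h1.subset (by simp)
          have h2 := hd.1 b hb
          have h3 : s.Subperm d := (List.sublist_cons_self b s).subperm.trans h1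
          have h4 := ih hd.2 h3 (k := k) (by simpa using hk)
          rw [List.sum_cons]
          omega

theorem sum_le_of_subperm {a D : ℕ} {r l : List ℕ} (hr : ∀ x ∈ r, x ≤ D) (ha : D ≤ a)
    (h : l.Subperm (a :: r)) : l.sum ≤ a + (l.length - 1) * D := by
  by_cases hal : a ∈ l
  · have h1 : (l.erase a).Subperm r := by
      have := h.erase a
      simpa using this
    have h2 : (l.erase a).sum ≤ (l.erase a).length * D := by
      have := List.sum_le_card_nsmul (l.erase a) D (fun x hx => hr x (h1.subset hx))
      simpa using this
    rw [List.length_erase_of_mem hal] at h2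
    have h4 : l.sum = a + (l.erase a).sum := by
      rw [(List.perm_cons_erase hal).sum_eq, List.sum_cons]
    omega
  · have h1 : l.Subperm r := by
      have := h.erase a
      rw [List.erase_of_not_mem hal] at this
      simpa using this
    cases l with
    | nil => simp
    | cons b l =>
      have hb := hr b (h1.subset (by simp))
      have h2 : l.sum ≤ l.length * D := by
        have := List.sum_le_card_nsmul l D (fun x hx => hr x (h1.subset (by simp [hx])))
        simpa using this
      rw [List.sum_cons, List.length_cons, Nat.add_sub_cancel]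
      omega

theorem take_sum_mono (d : List ℕ) {i j : ℕ} (h : i ≤ j) : (d.take i).sum ≤ (d.take j).sum := by
  have h1 : (d.take i).Sublist (d.take j) := by
    have : d.take i = (d.take j).take i := by rw [List.take_take, min_eq_left h]
    rw [this]
    exact List.take_sublist _ _
  exact h1.sum_le_sum (fun _ _ => Nat.zero_le _)

/-- the numbers of the degrees in a total dominating set sum up to at least the number of vertices -/
theorem length_le_of_tds {α : Type} [DecidableEq α] {V : List α} {E : List (α × α)} (hV : V.Nodup)
    {S : List α} (hS : IsTDS V E S) : V.length ≤ ((degSeq V E).take S.length).sum := by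
  obtain ⟨h1, h2, h3⟩ := hS
  have h4 : V.length ≤ (S.map (deg V E)).sum := by
    have h5 : V.Subperm (S.flatMap (fun u => V.filter (fun w => decide (Adj E u w)))) := by
      refine hV.subperm ?_
      intro v hv
      obtain ⟨u, hu, huv⟩ := h3 v hv
      rw [List.mem_flatMap]
      refine ⟨u, hu, List.mem_filter.2 ⟨hv, ?_⟩⟩
      rw [decide_eq_true_eq]
      exact huv.symm
    have h6 := h5.length_le
    rw [List.length_flatMap] at h6
    exact h6
  refine h4.trans (sum_le_take (degSeq_sorted V E) ?_ (by simp))
  refine List.Subperm.trans ?_ (degSeq_perm V E).symm.subperm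
  obtain ⟨l, hl1, hl2⟩ := h1.subperm (fun u hu => h2 u hu)
  exact ⟨l.map (deg V E), hl1.map _, hl2.map _⟩

theorem isTDS_self {I : Inst} (hI : IsInst I) : IsTDS I.1 I.2 I.1 :=
  ⟨hI.2.1, fun _ h => h, hI.2.2.2.2⟩

theorem exists_gammaT {I : Inst} (hI : IsInst I) :
    ∃ S, IsTDS I.1 I.2 S ∧ S.length = gammaT I.1 I.2 := by
  have h : {k | ∃ S, IsTDS I.1 I.2 S ∧ S.length = k}.Nonempty := ⟨_, _, isTDS_self hI, rfl⟩
  exact Nat.sInf_mem h

theorem gammaT_le {α : Type} {V : List α} {E : List (α × α)} {S : List α} (h : IsTDS V E S) :
    gammaT V E ≤ S.length := Nat.sInf_le ⟨S, h, rfl⟩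

theorem subT_le {α : Type} [DecidableEq α] {V : List α} {E : List (α × α)} {k : ℕ}
    (h : V.length ≤ ((degSeq V E).take k).sum) : subT V E ≤ k := Nat.sInf_le h

theorem lt_subT {I : Inst} (hI : IsInst I) {k : ℕ}
    (h : ((degSeq I.1 I.2).take k).sum < I.1.length) : k < subT I.1 I.2 := by
  have hne : {k | I.1.length ≤ ((degSeq I.1 I.2).take k).sum}.Nonempty :=
    ⟨_, length_le_of_tds hI.2.1 (isTDS_self hI)⟩
  have h1 := Nat.sInf_mem hne
  by_contra hk
  have h2 := take_sum_mono (degSeq I.1 I.2) (not_lt.1 hk)
  have h3 : I.1.length ≤ ((degSeq I.1 I.2).take (subT I.1 I.2)).sum := h1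
  omega

theorem take_lt_of_lt_subT {α : Type} [DecidableEq α] {V : List α} {E : List (α × α)} {k : ℕ}
    (h : k < subT V E) : ((degSeq V E).take k).sum < V.length := by
  by_contra hk
  have := subT_le (not_lt.1 hk)
  omega

theorem subT_le_gammaT {I : Inst} (hI : IsInst I) : subT I.1 I.2 ≤ gammaT I.1 I.2 := by
  obtain ⟨S, h1, h2⟩ := exists_gammaT hI
  rw [← h2]
  exact subT_le (length_le_of_tds hI.2.1 h1)

/-- the characterization used by the certificates -/
theorem eq_iff {I : Inst} (hI : IsInst I) : gammaT I.1 I.2 = subT I.1 I.2 ↔
    ∃ S, IsTDS I.1 I.2 S ∧ ((degSeq I.1 I.2).take (S.length - 1)).sum < I.1.length := by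
  constructor
  · intro h
    obtain ⟨S, h1, h2⟩ := exists_gammaT hI
    refine ⟨S, h1, take_lt_of_lt_subT ?_⟩
    have : S ≠ [] := by
      rintro rfl
      obtain ⟨v, hv⟩ := List.exists_mem_of_ne_nil _ hI.1
      obtain ⟨u, hu, -⟩ := h1.2.2 v hv
      simp at hu
    have := List.length_pos_iff.2 this
    omega
  · rintro ⟨S, h1, h2⟩
    have h3 := gammaT_le h1
    have h4 := lt_subT hI h2
    have h5 := subT_le_gammaT hI
    omega

end Pool.Agent.NPC.U19.TD
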