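import Pool.Agent.U19.TD.Red

/-!
# Correctness of the reduction
-/

namespace Pool.Agent.NPC.U19.TD

/-! ### Transfer along injective renamings -/

theorem deg_map {α β : Type} [DecidableEq α] [DecidableEq β] {a : α → β}
    {V : List α} {E : List (α × α)} {E' : List (β × β)}
    (hE : ∀ u v, Adj E' (a u) (a v) ↔ Adj E u v) (v : α) :
    deg (V.map a) E' (a v) = deg V E v := by
  unfold deg
  rw [List.filter_map, List.length_map]
  congr 1
  apply List.filter_congr
  intro w _
  simp only [Function.comp, hE]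

theorem degSeq_map {α β : Type} [DecidableEq α] [DecidableEq β] {a : α → β}
    {V : List α} {E : List (α × α)} {E' : List (β × β)}
    (hE : ∀ u v, Adj E' (a u) (a v) ↔ Adj E u v) :
    degSeq (V.map a) E' = degSeq V E := by
  unfold degSeq
  rw [List.map_map]
  congr 1
  apply List.map_congr_left
  intro v _
  exact deg_map hE v

theorem subT_map {α β : Type} [DecidableEq α] [DecidableEq β] {a : α → β}
    {V : List α} {E : List (α × α)} {E' : List (β × β)}
    (hE : ∀ u v, Adj E' (a u) (a v) ↔ Adj E u v) :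
    subT (V.map a) E' = subT V E := by
  unfold subT
  rw [degSeq_map hE, List.length_map]

theorem gammaT_map {α β : Type} {a : α → β} (ha : Function.Injective a)
    {V : List α} {E : List (α × α)} {E' : List (β × β)}
    (hE : ∀ u v, Adj E' (a u) (a v) ↔ Adj E u v) :
    gammaT (V.map a) E' = gammaT V E := by
  unfold gammaT
  congr 1
  ext k
  simp only [Set.mem_setOf_eq]
  constructor
  · rintro ⟨S, ⟨h1, h2, h3⟩, h4⟩
    have h5 : ∃ T : List α, T.map a = S := by
      have : S ∈ Set.range (List.map a) := by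
        rw [Set.range_list_map]
        intro x hx
        obtain ⟨y, _, rfl⟩ := List.mem_map.1 (h2 x hx)
        exact ⟨y, rfl⟩
      exact this
    obtain ⟨T, rfl⟩ := h5
    refine ⟨T, ⟨h1.of_map _, ?_, ?_⟩, by simpa using h4⟩
    · intro u hu
      have := h2 (a u) (List.mem_map_of_mem hu)
      obtain ⟨w, hw, hwu⟩ := List.mem_map.1 this
      rw [← ha hwu]
      exact hw
    · intro v hv
      obtain ⟨u', hu', h6⟩ := h3 (a v) (List.mem_map_of_mem hv)
      obtain ⟨u, hu, rfl⟩ := List.mem_map.1 hu'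
      exact ⟨u, hu, (hE _ _).1 h6⟩
  · rintro ⟨S, ⟨h1, h2, h3⟩, h4⟩
    refine ⟨S.map a, ⟨h1.map ha, ?_, ?_⟩, by simpa using h4⟩
    · intro u' hu'
      obtain ⟨u, hu, rfl⟩ := List.mem_map.1 hu'
      exact List.mem_map_of_mem (h2 u hu)
    · intro v' hv'
      obtain ⟨v, hv, rfl⟩ := List.mem_map.1 hv'
      obtain ⟨u, hu, h6⟩ := h3 v hv
      exact ⟨a u, List.mem_map_of_mem hu, (hE _ _).2 h6⟩

/-! ### The degrees -/

theorem deg_le {α : Type} [DecidableEq α] {V : List α} {E : List (α × α)} (hV : V.Nodup) {v : α}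
    {l : List α} (h : ∀ w ∈ V, Adj E v w → w ∈ l) : deg V E v ≤ l.length := by
  refine ((hV.filter _).subperm ?_).length_le
  intro w hw
  rw [List.mem_filter, decide_eq_true_eq] at hw
  exact h w hw.1 hw.2

theorem le_deg {α : Type} [DecidableEq α] {V : List α} {E : List (α × α)} {v : α}
    {l : List α} (hl : l.Nodup) (h : ∀ w ∈ l, w ∈ V ∧ Adj E v w) : l.length ≤ deg V E v := by
  refine (hl.subperm ?_).length_le
  intro w hw
  rw [List.mem_filter, decide_eq_true_eq]
  exact h w hw

variable {φ : List Cl}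

theorem nodup_lits (n : ℕ) :
    ((List.range n).flatMap (fun x => [((2, x, 0) : Nm), (2, x, 1)])).Nodup := by
  rw [List.nodup_flatMap]
  refine ⟨fun x _ => by simp, List.Pairwise.imp ?_ List.nodup_range⟩
  intro a b hab
  rw [Function.onFun, List.disjoint_left]
  intro y hy hy'
  simp only [List.mem_cons, List.not_mem_nil, or_false] at hy hy'
  rcases hy with rfl | rfl <;> simp [hab] at hy'

theorem nodup_vs (φ : List Cl) : (vs φ).Nodup := by
  unfold vs
  rw [List.nodup_cons]
  refine ⟨by simp, ?_⟩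
  rw [List.nodup_append]
  refine ⟨List.nodup_range.map fun a b h => by simpa using h, ?_, ?_⟩
  · rw [List.nodup_append]
    refine ⟨nodup_lits _, ?_, ?_⟩
    · rw [List.nodup_append]
      refine ⟨?_, List.nodup_range.map fun a b h => by simpa using h, ?_⟩
      · rw [List.nodup_flatMap]
        refine ⟨fun x _ => List.nodup_range.map fun a b h => by simpa using h,
          List.Pairwise.imp ?_ List.nodup_range⟩
        intro a b hab
        rw [Function.onFun, List.disjoint_left]
        intro y hy hy'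
        simp only [List.mem_map] at hy hy'
        obtain ⟨c, _, rfl⟩ := hy
        obtain ⟨d, _, hd⟩ := hy'
        simp only [Prod.mk.injEq, true_and] at hd
        exact hab hd.1.symm
      · intro a ha b hb
        simp only [List.mem_flatMap, List.mem_map] at ha hb
        obtain ⟨x, _, k, _, rfl⟩ := ha
        obtain ⟨c, _, rfl⟩ := hb
        simp
    · intro a ha b hb
      simp only [List.mem_flatMap, List.mem_map, List.mem_append, List.mem_cons,
        List.not_mem_nil, or_false] at ha hb
      obtain ⟨x, _, rfl | rfl⟩ := ha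
      · rcases hb with ⟨y, _, j, _, rfl⟩ | ⟨c, _, rfl⟩ <;> simp
      · rcases hb with ⟨y, _, j, _, rfl⟩ | ⟨c, _, rfl⟩ <;> simp
  · intro a ha b hb
    simp only [List.mem_flatMap, List.mem_map, List.mem_append, List.mem_cons,
        List.not_mem_nil, or_false] at ha hb
    obtain ⟨i, _, rfl⟩ := ha
    rcases hb with ⟨x, _, rfl | rfl⟩ | ⟨y, _, j, _, rfl⟩ | ⟨c, _, rfl⟩ <;> simp

theorem length_lits (n : ℕ) :
    ((List.range n).flatMap (fun x => [((2, x, 0) : Nm), (2, x, 1)])).length = 2 * n := by
  rw [List.length_flatMap]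
  simp
  ring

theorem length_vs (φ : List Cl) : (vs φ).length =
    1 + (bl φ + (2 * (3 * φ.length) + ((3 * φ.length) * bt φ + φ.length))) := by
  unfold vs
  rw [List.length_cons, List.length_append, List.length_append, List.length_append, length_lits,
    List.length_map, List.length_map, List.length_flatMap, List.length_range, List.length_range]
  simp
  ring

theorem mem_lits {n : ℕ} {w : Nm} :
    w ∈ (List.range n).flatMap (fun x => [((2, x, 0) : Nm), (2, x, 1)]) ↔
      ∃ x < n, ∃ s, w = (2, x, sg s) := by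
  simp only [List.mem_flatMap, List.mem_range, List.mem_cons,
    List.not_mem_nil, or_false, Bool.exists_bool, sg, cond_true, cond_false]

theorem adj_z {w : Nm} : Adj (es φ) (0, 0, 0) w ↔
    (∃ i < bl φ, w = (1, i, 0)) ∨ (∃ x < 3 * φ.length, ∃ s, w = (2, x, sg s)) := by
  unfold Adj
  rw [mem_es, mem_es]
  simp

theorem adj_leaf {i : ℕ} {w : Nm} (h : Adj (es φ) (1, i, 0) w) : w = (0, 0, 0) := by
  unfold Adj at h
  rw [mem_es, mem_es] at h
  simp at h
  exact h.1

theorem adj_lit {x : ℕ} {s : Bool} {w : Nm} (h : Adj (es φ) (2, x, sg s) w) : w = (0, 0, 0) ∨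
    (∃ j < bt φ, w = (3, x, j)) ∨ (∃ c < φ.length, w = (4, c, 0)) := by
  unfold Adj at h
  rw [mem_es, mem_es] at h
  rcases h with (⟨h, -⟩ | ⟨h, -⟩ | ⟨x', hx, s', h, j, hj, h'⟩ | ⟨x', s', h, c, d, hd, h1, h'⟩) |
    (⟨h, -⟩ | ⟨h, -⟩ | ⟨x', hx, s', h, j, hj, h'⟩ | ⟨x', s', h, c, d, hd, h1, h'⟩)
  · simp at h
  · simp at h
  · simp only [Prod.mk.injEq, true_and] at h
    rw [← h.1] at h'
    exact Or.inr (Or.inl ⟨j, hj, h'⟩)
  · exact Or.inr (Or.inr ⟨c, (List.getElem?_eq_some_iff.1 hd).1, h'⟩)
  · exact Or.inl h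
  · exact Or.inl h
  · simp at h'
  · simp at h'

theorem adj_block {x j : ℕ} {w : Nm} (h : Adj (es φ) (3, x, j) w) : ∃ s, w = (2, x, sg s) := by
  unfold Adj at h
  rw [mem_es, mem_es] at h
  rcases h with (⟨h, -⟩ | ⟨h, -⟩ | ⟨x', hx, s', h, j, hj, h'⟩ | ⟨x', s', h, c, d, hd, h1, h'⟩) |
    (⟨h, i, _, h'⟩ | ⟨h, y, _, s, h'⟩ | ⟨x', hx, s', h, j, hj, h'⟩ | ⟨x', s', h, c, d, hd, h1, h'⟩)
  · simp at h
  · simp at h
  · simp at h
  · simp at h
  · simp at h'
  · simp at h'
  · simp only [Prod.mk.injEq, true_and] at h'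
    rw [← h'.1] at h
    exact ⟨s', h⟩
  · simp at h'

theorem adj_clause {c : ℕ} {w : Nm} (h : Adj (es φ) (4, c, 0) w) :
    ∃ x s d, w = (2, x, sg s) ∧ φ[c]? = some d ∧ InCl (s, x) d := by
  unfold Adj at h
  rw [mem_es, mem_es] at h
  rcases h with (⟨h, -⟩ | ⟨h, -⟩ | ⟨x', hx, s', h, j, hj, h'⟩ | ⟨x', s', h, c, d, hd, h1, h'⟩) |
    (⟨h, i, _, h'⟩ | ⟨h, y, _, s, h'⟩ | ⟨x', hx, s', h, j, hj, h'⟩ | ⟨x', s', h, c, d, hd, h1, h'⟩)
  · simp at h
  · simp at h
  · simp at h
  · simp at h
  · simp at h'
  · simp at h'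
  · simp at h'
  · simp only [Prod.mk.injEq, true_and, and_true] at h'
    subst h'
    exact ⟨x', s', d, h, hd, h1⟩

theorem deg_z : deg (vs φ) (es φ) (0, 0, 0) = bl φ + 2 * (3 * φ.length) := by
  apply le_antisymm
  · have := deg_le (E := es φ) (v := (0, 0, 0)) (nodup_vs φ)
      (l := (List.range (bl φ)).map (fun i => ((1, i, 0) : Nm)) ++
        (List.range (3 * φ.length)).flatMap (fun x => [((2, x, 0) : Nm), (2, x, 1)])) (by
          intro w _ hw
          rw [adj_z] at hw
          rw [List.mem_append, mem_lits, List.mem_map]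
          rcases hw with ⟨i, hi, rfl⟩ | h
          · exact Or.inl ⟨i, List.mem_range.2 hi, rfl⟩
          · exact Or.inr h)
    rw [List.length_append, length_lits, List.length_map, List.length_range] at this
    exact this
  · have := le_deg (V := vs φ) (E := es φ) (v := (0, 0, 0))
      (l := (List.range (bl φ)).map (fun i => ((1, i, 0) : Nm)) ++
        (List.range (3 * φ.length)).flatMap (fun x => [((2, x, 0) : Nm), (2, x, 1)])) (by
          rw [List.nodup_append]
          refine ⟨List.nodup_range.map fun a b h => by simpa using h, nodup_lits _, ?_⟩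
          intro a ha b hb
          rw [mem_lits] at hb
          simp only [List.mem_map] at ha
          obtain ⟨i, _, rfl⟩ := ha
          obtain ⟨x, _, s, rfl⟩ := hb
          simp) (by
          intro w hw
          rw [List.mem_append, mem_lits, List.mem_map] at hw
          rw [adj_z, mem_vs]
          rcases hw with ⟨i, hi, rfl⟩ | h
          · rw [List.mem_range] at hi
            exact ⟨Or.inr (Or.inl ⟨i, hi, rfl⟩), Or.inl ⟨i, hi, rfl⟩⟩
          · exact ⟨Or.inr (Or.inr (Or.inl h)), Or.inr h⟩)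
    rw [List.length_append, length_lits, List.length_map, List.length_range] at this
    exact this

theorem le_deg_lit {x : ℕ} (hx : x < 3 * φ.length) (s : Bool) :
    1 + bt φ ≤ deg (vs φ) (es φ) (2, x, sg s) := by
  have := le_deg (V := vs φ) (E := es φ) (v := (2, x, sg s))
      (l := (0, 0, 0) :: (List.range (bt φ)).map (fun i => ((3, x, i) : Nm))) (by
          rw [List.nodup_cons]
          refine ⟨by simp, List.nodup_range.map fun a b h => by simpa using h⟩) (by
          intro w hw
          rw [List.mem_cons, List.mem_map] at hw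
          rw [mem_vs]
          unfold Adj
          rw [mem_es, mem_es]
          rcases hw with rfl | ⟨i, hi, rfl⟩
          · exact ⟨Or.inl rfl, Or.inr (Or.inr (Or.inl ⟨rfl, x, hx, s, rfl⟩))⟩
          · rw [List.mem_range] at hi
            refine ⟨Or.inr (Or.inr (Or.inr (Or.inl ⟨x, hx, i, hi, rfl⟩))),
              Or.inl (Or.inr (Or.inr (Or.inl ⟨x, hx, s, rfl, i, hi, rfl⟩)))⟩)
  rw [List.length_cons, List.length_map, List.length_range] at this
  omega

theorem one_le_bt (hφ : φ ≠ []) : 6 ≤ bt φ := by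
  have h := List.length_pos_iff.2 hφ
  unfold bt
  calc 6 = (3 * 1) * (1 + 1) := by norm_num
    _ ≤ _ := Nat.mul_le_mul (by omega) (by omega)

theorem deg_le_bl (hφ : φ ≠ []) {u : Nm} (hu : u ∈ vs φ) (hz : u ≠ (0, 0, 0)) :
    deg (vs φ) (es φ) u ≤ bl φ := by
  have h6 := one_le_bt hφ
  have hbl : bl φ = bt φ + φ.length + 1 := rfl
  rw [mem_vs] at hu
  rcases hu with h | ⟨i, _, rfl⟩ | ⟨x, _, s, rfl⟩ | ⟨x, _, j, _, rfl⟩ | ⟨c, hc, rfl⟩
  · exact absurd h hz
  · have := deg_le (E := es φ) (v := (1, i, 0)) (nodup_vs φ) (l := [(0, 0, 0)]) (by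
      intro w _ hw
      rw [adj_leaf hw]
      simp)
    simp at this
    omega
  · have := deg_le (E := es φ) (v := (2, x, sg s)) (nodup_vs φ)
      (l := (0, 0, 0) :: ((List.range (bt φ)).map (fun i => ((3, x, i) : Nm)) ++
        (List.range φ.length).map (fun c => (4, c, 0)))) (by
      intro w _ hw
      rw [List.mem_cons, List.mem_append, List.mem_map, List.mem_map]
      rcases adj_lit hw with h | ⟨j, hj, rfl⟩ | ⟨c, hc, rfl⟩
      · exact Or.inl h
      · exact Or.inr (Or.inl ⟨j, List.mem_range.2 hj, rfl⟩)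
      · exact Or.inr (Or.inr ⟨c, List.mem_range.2 hc, rfl⟩))
    rw [List.length_cons, List.length_append, List.length_map, List.length_map, List.length_range,
      List.length_range] at this
    omega
  · have := deg_le (E := es φ) (v := (3, x, j)) (nodup_vs φ)
      (l := [(2, x, sg false), (2, x, sg true)]) (by
      intro w _ hw
      obtain ⟨s, rfl⟩ := adj_block hw
      cases s <;> simp)
    simp at this
    omega
  · have hd : φ[c]? = some φ[c] := List.getElem?_eq_getElem hc
    have := deg_le (E := es φ) (v := (4, c, 0)) (nodup_vs φ)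
      (l := [(2, φ[c].1.2, sg φ[c].1.1), (2, φ[c].2.1.2, sg φ[c].2.1.1),
        (2, φ[c].2.2.2, sg φ[c].2.2.1)]) (by
      intro w _ hw
      obtain ⟨x, s, d, rfl, h1, h2⟩ := adj_clause hw
      rw [hd] at h1
      have h3 : φ[c] = d := by simpa using h1
      rw [h3]
      rcases h2 with h | h | h
      · rw [← h]; simp
      · rw [← h]; simp
      · rw [← h]; simp)
    simp at this
    omega

/-- the sum of few degrees is small -/
theorem take_lt (hφ : φ ≠ []) :
    ((degSeq (vs φ) (es φ)).take (3 * φ.length)).sum < (vs φ).length := by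
  have hm := List.length_pos_iff.2 hφ
  have hz : (0, 0, 0) ∈ vs φ := mem_vs.2 (Or.inl rfl)
  have hp : (degSeq (vs φ) (es φ)).Perm (deg (vs φ) (es φ) (0, 0, 0) ::
      ((vs φ).erase (0, 0, 0)).map (deg (vs φ) (es φ))) := by
    refine (degSeq_perm _ _).trans ?_
    have := (List.perm_cons_erase hz).map (deg (vs φ) (es φ))
    simpa using this
  have h1 := sum_le_of_subperm (D := bl φ) (a := deg (vs φ) (es φ) (0, 0, 0))
    (r := ((vs φ).erase (0, 0, 0)).map (deg (vs φ) (es φ)))
    (l := (degSeq (vs φ) (es φ)).take (3 * φ.length)) (by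
      intro y hy
      obtain ⟨u, hu, rfl⟩ := List.mem_map.1 hy
      rw [(nodup_vs φ).mem_erase_iff] at hu
      exact deg_le_bl hφ hu.2 hu.1) (by rw [deg_z]; omega)
    ((List.take_sublist _ _).subperm.trans hp.subperm)
  have h2 : ((degSeq (vs φ) (es φ)).take (3 * φ.length)).length - 1 ≤ 3 * φ.length - 1 := by
    rw [List.length_take]
    omega
  have h3 := Nat.mul_le_mul_right (bl φ) h2
  rw [length_vs]
  rw [deg_z] at h1
  have h4 : (3 * φ.length - 1) * bl φ < 1 + (3 * φ.length) * bt φ + φ.length := by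
    have hbl : bl φ = bt φ + φ.length + 1 := rfl
    have hbt : bt φ = (3 * φ.length) * (φ.length + 1) := rfl
    rw [hbl]
    have h5 : (3 * φ.length - 1) * (bt φ + φ.length + 1) + (bt φ + φ.length + 1) =
        (3 * φ.length) * bt φ + (3 * φ.length) * (φ.length + 1) := by
      obtain ⟨k, hk⟩ : ∃ k, 3 * φ.length = k + 1 := ⟨3 * φ.length - 1, by omega⟩
      rw [hk, Nat.add_sub_cancel]
      ring
    rw [← hbt] at h5
    omega
  omega

theorem le_take (hφ : φ ≠ []) :
    (vs φ).length ≤ ((degSeq (vs φ) (es φ)).take (3 * φ.length + 1)).sum := by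
  have hm := List.length_pos_iff.2 hφ
  have hl : ((0, 0, 0) :: (List.range (3 * φ.length)).map (fun x => ((2, x, 0) : Nm))).Nodup := by
    rw [List.nodup_cons]
    exact ⟨by simp, List.nodup_range.map fun a b h => by simpa using h⟩
  have h1 := sum_le_take (degSeq_sorted (vs φ) (es φ))
    (s := ((0, 0, 0) :: (List.range (3 * φ.length)).map (fun x => ((2, x, 0) : Nm))).map
      (deg (vs φ) (es φ))) (k := 3 * φ.length + 1) (by
      refine List.Subperm.trans ?_ (degSeq_perm _ _).symm.subperm
      obtain ⟨l, hl1, hl2⟩ := hl.subperm (l₂ := vs φ) (by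
        intro u hu
        rw [List.mem_cons, List.mem_map] at hu
        rw [mem_vs]
        rcases hu with rfl | ⟨x, hx, rfl⟩
        · exact Or.inl rfl
        · exact Or.inr (Or.inr (Or.inl ⟨x, List.mem_range.1 hx, false, rfl⟩)))
      exact ⟨l.map _, hl1.map _, hl2.map _⟩) (by simp)
  refine le_trans ?_ h1
  rw [List.map_cons, List.sum_cons, List.map_map, deg_z, length_vs]
  have h2 : (3 * φ.length) * (1 + bt φ) ≤
      ((List.range (3 * φ.length)).map (deg (vs φ) (es φ) ∘ fun x => (2, x, 0))).sum := by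
    have := List.card_nsmul_le_sum
      ((List.range (3 * φ.length)).map (deg (vs φ) (es φ) ∘ fun x => (2, x, 0))) (1 + bt φ) (by
        intro y hy
        obtain ⟨x, hx, rfl⟩ := List.mem_map.1 hy
        exact le_deg_lit (List.mem_range.1 hx) false)
    simpa using this
  have h3 : (3 * φ.length) * (1 + bt φ) = 3 * φ.length + (3 * φ.length) * bt φ := by ring
  omega

end Pool.Agent.NPC.U19.TD
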