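import Pool.Agent.NPC.Classes

/-!
# Total domination number and sub-total domination number
-/

namespace Pool.Agent.NPC.U19.TD

/-- `u` and `v` are adjacent in the graph with the list of edges `E` -/
def Adj {α : Type} (E : List (α × α)) (u v : α) : Prop := (u, v) ∈ E ∨ (v, u) ∈ E

instance {α : Type} [DecidableEq α] (E : List (α × α)) (u v : α) : Decidable (Adj E u v) := by
  unfold Adj
  infer_instance

/-- the degree of the vertex `v`: the number of the vertices adjacent to `v` -/
def deg {α : Type} [DecidableEq α] (V : List α) (E : List (α × α)) (v : α) : ℕ :=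
  (V.filter (fun w => decide (Adj E v w))).length

/-- the degree sequence, in non-increasing order -/
def degSeq {α : Type} [DecidableEq α] (V : List α) (E : List (α × α)) : List ℕ :=
  (V.map (deg V E)).mergeSort (fun a b => decide (b ≤ a))

/-- the sub-total domination number: the least `k` such that the sum of the first `k` numbers of the
degree sequence is at least the number of vertices -/
noncomputable def subT {α : Type} [DecidableEq α] (V : List α) (E : List (α × α)) : ℕ :=
  sInf {k | V.length ≤ ((degSeq V E).take k).sum}

/-- the vertices in the list `S` (without repetitions) are a total dominating set: every vertex has a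
neighbour in `S` -/
def IsTDS {α : Type} (V : List α) (E : List (α × α)) (S : List α) : Prop :=
  S.Nodup ∧ (∀ u ∈ S, u ∈ V) ∧ ∀ v ∈ V, ∃ u ∈ S, Adj E v u

/-- the total domination number -/
noncomputable def gammaT {α : Type} (V : List α) (E : List (α × α)) : ℕ :=
  sInf {k | ∃ S, IsTDS V E S ∧ S.length = k}

/-- An instance: the list of the vertices and the list of the edges (every edge is listed in one of
the two directions). -/
abbrev Inst : Type := List ℕ × List (ℕ × ℕ)

/-- The instance describes a nonempty simple graph without isolated vertices. -/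
def IsInst (I : Inst) : Prop :=
  I.1 ≠ [] ∧ I.1.Nodup ∧ I.2.Nodup ∧
    (∀ e ∈ I.2, e.1 ∈ I.1 ∧ e.2 ∈ I.1 ∧ e.1 ≠ e.2 ∧ (e.2, e.1) ∉ I.2) ∧
    ∀ v ∈ I.1, ∃ w ∈ I.1, Adj I.2 v w

/-- TDS-EQ: the total domination number is equal to the sub-total domination number. -/
def TdsEq (I : Inst) : Prop := IsInst I ∧ gammaT I.1 I.2 = subT I.1 I.2

end Pool.Agent.NPC.U19.TD
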