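import Pool.Agent.U19.TD.Correct

/-!
# Total dominating sets of the reduction and assignments
-/

namespace Pool.Agent.NPC.U19.TD

open Pool.Agent.H622R2 (ddup mem_ddup ddup_nodup ddup_poly)

variable {φ : List Cl}

theorem adj_symm {α : Type} {E : List (α × α)} {u v : α} (h : Adj E u v) : Adj E v u := h.symm

/-- the dominating set of an assignment -/
def dset (n : ℕ) (τ : ℕ → Bool) : List Nm :=
  (0, 0, 0) :: (List.range n).map (fun x => (2, x, sg (τ x)))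

theorem nodup_dset (n : ℕ) (τ : ℕ → Bool) : (dset n τ).Nodup := by
  unfold dset
  rw [List.nodup_cons]
  refine ⟨by simp, List.nodup_range.map fun a b h => ?_⟩
  simp only [Prod.mk.injEq, true_and] at h
  exact h.1

theorem length_dset (n : ℕ) (τ : ℕ → Bool) : (dset n τ).length = n + 1 := by
  simp [dset]

theorem mem_dset {n : ℕ} {τ : ℕ → Bool} {u : Nm} :
    u ∈ dset n τ ↔ u = (0, 0, 0) ∨ ∃ x < n, u = (2, x, sg (τ x)) := by
  unfold dset
  rw [List.mem_cons, List.mem_map]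
  constructor
  · rintro (h | ⟨x, hx, rfl⟩)
    · exact Or.inl h
    · exact Or.inr ⟨x, List.mem_range.1 hx, rfl⟩
  · rintro (h | ⟨x, hx, rfl⟩)
    · exact Or.inl h
    · exact Or.inr ⟨x, List.mem_range.2 hx, rfl⟩

theorem sat_iff' (τ : ℕ → Bool) (φ : List Cl) :
    (∀ c ∈ φ, τ c.1.2 = c.1.1 ∨ τ c.2.1.2 = c.2.1.1 ∨ τ c.2.2.2 = c.2.2.1) ↔
      ∀ (c : ℕ) (d : Cl), φ[c]? = some d → ∃ x s, InCl (s, x) d ∧ τ x = s := by
  constructor
  · intro h c d hd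
    rcases h d (List.mem_of_getElem? hd) with h | h | h
    · exact ⟨_, _, Or.inl rfl, h⟩
    · exact ⟨_, _, Or.inr (Or.inl rfl), h⟩
    · exact ⟨_, _, Or.inr (Or.inr rfl), h⟩
  · intro h d hd
    obtain ⟨c, hc⟩ := List.mem_iff_getElem?.1 hd
    obtain ⟨x, s, h1, h2⟩ := h c d hc
    rcases h1 with h1 | h1 | h1
    · left; rw [← h1]; exact h2
    · right; left; rw [← h1]; exact h2
    · right; right; rw [← h1]; exact h2

theorem tds_of_sat (hb : Bounded3 φ) (hφ : φ ≠ []) {τ : ℕ → Bool}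
    (hτ : ∀ (c : ℕ) (d : Cl), φ[c]? = some d → ∃ x s, InCl (s, x) d ∧ τ x = s) :
    IsTDS (vs φ) (es φ) (dset (3 * φ.length) τ) := by
  have hm := List.length_pos_iff.2 hφ
  refine ⟨nodup_dset _ _, ?_, ?_⟩
  · intro u hu
    rw [mem_dset] at hu
    rw [mem_vs]
    rcases hu with rfl | ⟨x, hx, rfl⟩
    · exact Or.inl rfl
    · exact Or.inr (Or.inr (Or.inl ⟨x, hx, _, rfl⟩))
  · intro v hv
    rw [mem_vs] at hv
    rcases hv with rfl | ⟨i, hi, rfl⟩ | ⟨x, hx, s, rfl⟩ | ⟨x, hx, j, hj, rfl⟩ | ⟨c, hc, rfl⟩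
    · exact ⟨(2, 0, sg (τ 0)), mem_dset.2 (Or.inr ⟨0, by omega, rfl⟩),
        adj_z.2 (Or.inr ⟨0, by omega, _, rfl⟩)⟩
    · exact ⟨(0, 0, 0), mem_dset.2 (Or.inl rfl), adj_symm (adj_z.2 (Or.inl ⟨i, hi, rfl⟩))⟩
    · exact ⟨(0, 0, 0), mem_dset.2 (Or.inl rfl), adj_symm (adj_z.2 (Or.inr ⟨x, hx, s, rfl⟩))⟩
    · refine ⟨(2, x, sg (τ x)), mem_dset.2 (Or.inr ⟨x, hx, rfl⟩), Or.inr ?_⟩
      rw [mem_es]
      exact Or.inr (Or.inr (Or.inl ⟨x, hx, _, rfl, j, hj, rfl⟩))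
    · have hd : φ[c]? = some φ[c] := List.getElem?_eq_getElem hc
      obtain ⟨x, s, h1, h2⟩ := hτ c _ hd
      refine ⟨(2, x, sg (τ x)), mem_dset.2 (Or.inr ⟨x, inCl_lt hb hd h1, rfl⟩), Or.inr ?_⟩
      rw [mem_es]
      refine Or.inr (Or.inr (Or.inr ⟨x, s, ?_, c, _, hd, h1, rfl⟩))
      rw [h2]

open Classical in
theorem sat_of_tds (hb : Bounded3 φ) (hφ : φ ≠ []) {S : List Nm} (hS : IsTDS (vs φ) (es φ) S)
    (hl : S.length ≤ 3 * φ.length + 1) :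
    ∃ τ : ℕ → Bool, ∀ (c : ℕ) (d : Cl), φ[c]? = some d → ∃ x s, InCl (s, x) d ∧ τ x = s := by
  have hm := List.length_pos_iff.2 hφ
  have h6 := one_le_bt hφ
  obtain ⟨h1, h2, h3⟩ := hS
  have hz : (0, 0, 0) ∈ S := by
    have hbl : bl φ = bt φ + φ.length + 1 := rfl
    obtain ⟨u, hu, h⟩ := h3 (1, 0, 0) (mem_vs.2 (Or.inr (Or.inl ⟨0, by omega, rfl⟩)))
    rw [adj_leaf h] at hu
    exact hu
  have hx : ∀ x < 3 * φ.length, ∃ s, (2, x, sg s) ∈ S := by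
    intro x hx
    obtain ⟨u, hu, h⟩ := h3 (3, x, 0)
      (mem_vs.2 (Or.inr (Or.inr (Or.inr (Or.inl ⟨x, hx, 0, by omega, rfl⟩)))))
    obtain ⟨s, rfl⟩ := adj_block h
    exact ⟨s, hu⟩
  let τ : ℕ → Bool := fun x => if h : ∃ s, (2, x, sg s) ∈ S then h.choose else false
  have hτ : ∀ x < 3 * φ.length, (2, x, sg (τ x)) ∈ S := by
    intro x hx'
    simp only [τ, dif_pos (hx x hx')]
    exact (hx x hx').choose_spec
  have hsub : dset (3 * φ.length) τ ⊆ S := by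
    intro u hu
    rw [mem_dset] at hu
    rcases hu with rfl | ⟨x, hx', rfl⟩
    · exact hz
    · exact hτ x hx'
  have hperm : (dset (3 * φ.length) τ).Perm S :=
    ((nodup_dset _ _).subperm hsub).perm_of_length_le (by rw [length_dset]; exact hl)
  refine ⟨τ, ?_⟩
  intro c d hd
  obtain ⟨u, hu, h⟩ := h3 (4, c, 0)
    (mem_vs.2 (Or.inr (Or.inr (Or.inr (Or.inr ⟨c, (List.getElem?_eq_some_iff.1 hd).1, rfl⟩)))))
  obtain ⟨x, s, d', rfl, h4, h5⟩ := adj_clause h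
  rw [hd] at h4
  have h7 : d = d' := by simpa using h4
  rw [← h7] at h5
  refine ⟨x, s, h5, ?_⟩
  have h8 := hperm.mem_iff.2 hu
  rw [mem_dset] at h8
  rcases h8 with h8 | ⟨x', _, h8⟩
  · simp at h8
  · simp only [Prod.mk.injEq, true_and] at h8
    rw [← h8.1] at h8
    exact (sg_inj h8.2).symm

/-- the code of a name -/
def cod (u : Nm) : ℕ := Nat.pair u.1 (Nat.pair u.2.1 u.2.2)

theorem cod_inj : Function.Injective cod := by
  rintro ⟨a, b, c⟩ ⟨a', b', c'⟩ h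
  simp only [cod, Nat.pair_eq_pair] at h
  obtain ⟨rfl, rfl, rfl⟩ := h
  rfl

/-- the reduction -/
def red (φ : List Cl) : Inst :=
  ((vs φ).map cod, ddup ((es φ).map (Prod.map cod cod)))

theorem adj_red (u v : Nm) : Adj (red φ).2 (cod u) (cod v) ↔ Adj (es φ) u v := by
  have hPM : Function.Injective (Prod.map cod cod) := cod_inj.prodMap cod_inj
  have h : ∀ u v : Nm, (cod u, cod v) ∈ (red φ).2 ↔ (u, v) ∈ es φ := by
    intro u v
    rw [red, mem_ddup]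
    have : (cod u, cod v) = Prod.map cod cod (u, v) := rfl
    rw [this, List.mem_map_of_injective hPM]
  unfold Adj
  rw [h, h]

theorem fst_lt {u v : Nm} (h : (u, v) ∈ es φ) : u.1 < v.1 := by
  rw [mem_es] at h
  rcases h with ⟨rfl, i, hi, rfl⟩ | ⟨rfl, x, hx, s, rfl⟩ | ⟨x, hx, s, rfl, j, hj, rfl⟩ |
    ⟨x, s, rfl, c, d, hd, h, rfl⟩ <;> simp

theorem es_sub (hb : Bounded3 φ) {u v : Nm} (h : (u, v) ∈ es φ) : u ∈ vs φ ∧ v ∈ vs φ := by
  rw [mem_es] at h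
  rw [mem_vs, mem_vs]
  rcases h with ⟨rfl, i, hi, rfl⟩ | ⟨rfl, x, hx, s, rfl⟩ | ⟨x, hx, s, rfl, j, hj, rfl⟩ |
    ⟨x, s, rfl, c, d, hd, h, rfl⟩
  · exact ⟨Or.inl rfl, Or.inr (Or.inl ⟨i, hi, rfl⟩)⟩
  · exact ⟨Or.inl rfl, Or.inr (Or.inr (Or.inl ⟨x, hx, s, rfl⟩))⟩
  · exact ⟨Or.inr (Or.inr (Or.inl ⟨x, hx, s, rfl⟩)),
      Or.inr (Or.inr (Or.inr (Or.inl ⟨x, hx, j, hj, rfl⟩)))⟩
  · exact ⟨Or.inr (Or.inr (Or.inl ⟨x, inCl_lt hb hd h, s, rfl⟩)),
      Or.inr (Or.inr (Or.inr (Or.inr ⟨c, (List.getElem?_eq_some_iff.1 hd).1, rfl⟩)))⟩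

theorem exists_adj (hb : Bounded3 φ) (hφ : φ ≠ []) {v : Nm} (hv : v ∈ vs φ) :
    ∃ w ∈ vs φ, Adj (es φ) v w := by
  have h : ∀ w, Adj (es φ) v w → w ∈ vs φ := by
    intro w hw
    rcases hw with hw | hw
    · exact (es_sub hb hw).2
    · exact (es_sub hb hw).1
  suffices ∃ w, Adj (es φ) v w by
    obtain ⟨w, hw⟩ := this
    exact ⟨w, h w hw, hw⟩
  rw [mem_vs] at hv
  rcases hv with rfl | ⟨i, hi, rfl⟩ | ⟨x, hx, s, rfl⟩ | ⟨x, hx, j, hj, rfl⟩ | ⟨c, hc, rfl⟩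
  · have hbl : bl φ = bt φ + φ.length + 1 := rfl
    exact ⟨_, adj_z.2 (Or.inl ⟨0, by omega, rfl⟩)⟩
  · exact ⟨_, adj_symm (adj_z.2 (Or.inl ⟨i, hi, rfl⟩))⟩
  · exact ⟨_, adj_symm (adj_z.2 (Or.inr ⟨x, hx, s, rfl⟩))⟩
  · exact ⟨(2, x, sg false), Or.inr (mem_es.2
      (Or.inr (Or.inr (Or.inl ⟨x, hx, false, rfl, j, hj, rfl⟩))))⟩
  · have hd : φ[c]? = some φ[c] := List.getElem?_eq_getElem hc
    exact ⟨(2, φ[c].1.2, sg φ[c].1.1), Or.inr (mem_es.2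
      (Or.inr (Or.inr (Or.inr ⟨_, _, rfl, c, _, hd, Or.inl rfl, rfl⟩))))⟩

theorem isInst_red (hb : Bounded3 φ) (hφ : φ ≠ []) : IsInst (red φ) := by
  have hPM : Function.Injective (Prod.map cod cod) := cod_inj.prodMap cod_inj
  refine ⟨?_, (nodup_vs φ).map cod_inj, ddup_nodup _, ?_, ?_⟩
  · unfold red vs
    simp
  · intro e he
    rw [red, mem_ddup, List.mem_map] at he
    obtain ⟨⟨u, v⟩, h1, rfl⟩ := he
    have h2 := es_sub hb h1
    have h3 := fst_lt h1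
    refine ⟨List.mem_map_of_mem h2.1, List.mem_map_of_mem h2.2, ?_, ?_⟩
    · intro h
      have h5 : u = v := cod_inj h
      rw [h5] at h3
      exact lt_irrefl _ h3
    · intro h
      rw [red, mem_ddup] at h
      have h4 : (cod v, cod u) = Prod.map cod cod (v, u) := rfl
      change (cod v, cod u) ∈ (es φ).map (Prod.map cod cod) at h
      rw [h4, List.mem_map_of_injective hPM] at h
      have := fst_lt h
      omega
  · intro v' hv'
    obtain ⟨v, hv, rfl⟩ := List.mem_map.1 hv'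
    obtain ⟨w, hw, h⟩ := exists_adj hb hφ hv
    exact ⟨cod w, List.mem_map_of_mem hw, (adj_red v w).2 h⟩

theorem red_correct (hb : Bounded3 φ) (hφ : φ ≠ []) :
    SAT3 φ ↔ gammaT (red φ).1 (red φ).2 = subT (red φ).1 (red φ).2 := by
  have hI := isInst_red hb hφ
  have hg : gammaT (red φ).1 (red φ).2 = gammaT (vs φ) (es φ) := gammaT_map cod_inj adj_red
  have hs : subT (red φ).1 (red φ).2 = subT (vs φ) (es φ) := subT_map adj_red
  have hds : degSeq (red φ).1 (red φ).2 = degSeq (vs φ) (es φ) := degSeq_map adj_red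
  have hlen : (red φ).1.length = (vs φ).length := by simp [red]
  have hsub : subT (vs φ) (es φ) = 3 * φ.length + 1 := by
    apply le_antisymm (subT_le (le_take hφ))
    rw [← hs]
    apply lt_subT hI
    rw [hds, hlen]
    exact take_lt hφ
  unfold SAT3 Sat3V
  simp only [sat_iff']
  constructor
  · rintro ⟨τ, hτ⟩
    have h1 := gammaT_le (tds_of_sat hb hφ hτ)
    rw [length_dset] at h1
    have h2 := subT_le_gammaT hI
    omega
  · intro h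
    rw [hg, hs, hsub] at h
    have hne : {k | ∃ S, IsTDS (vs φ) (es φ) S ∧ S.length = k}.Nonempty :=
      ⟨_, vs φ, ⟨nodup_vs φ, fun _ h => h, fun v hv => exists_adj hb hφ hv⟩, rfl⟩
    obtain ⟨S, h1, h2⟩ := Nat.sInf_mem hne
    have h3 : S.length = 3 * φ.length + 1 := by
      rw [h2]
      exact h
    exact sat_of_tds hb hφ h1 h3.le

end Pool.Agent.NPC.U19.TD
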