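import Pool.Agent.U19.TD.Base
import Pool.Agent.NPC.Sat2
import Pool.Agent.NPC.Dec
import Pool.Agent.H671R2.Search
import Pool.Agent.H622R2.Base

/-!
# The reduction from 3SAT
-/

namespace Pool.Agent.NPC.U19.TD

open Pool.Agent.H622R2 (ddup mem_ddup ddup_nodup ddup_poly)

/-- the names of the vertices -/
abbrev Nm : Type := ℕ × ℕ × ℕ

/-- a clause -/
abbrev Cl : Type := Lit ℕ × Lit ℕ × Lit ℕ

/-- the number of a truth value -/
def sg (s : Bool) : ℕ := bif s then 1 else 0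

/-- the size of the blocks -/
def bt (φ : List Cl) : ℕ := (3 * φ.length) * (φ.length + 1)

/-- the number of the leaves -/
def bl (φ : List Cl) : ℕ := bt φ + φ.length + 1

/-- the vertices: the centre, the leaves, the literals, the blocks, the clauses -/
def vs (φ : List Cl) : List Nm :=
  (0, 0, 0) :: ((List.range (bl φ)).map (fun i => (1, i, 0)) ++
    ((List.range (3 * φ.length)).flatMap (fun x => [(2, x, 0), (2, x, 1)]) ++
    ((List.range (3 * φ.length)).flatMap (fun x => (List.range (bt φ)).map fun j => (3, x, j)) ++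
    (List.range φ.length).map (fun c => (4, c, 0)))))

/-- the edges -/
def es (φ : List Cl) : List (Nm × Nm) :=
  (List.range (bl φ)).map (fun i => ((0, 0, 0), (1, i, 0))) ++
    ((List.range (3 * φ.length)).flatMap (fun x => [((0, 0, 0), (2, x, 0)), ((0, 0, 0), (2, x, 1))]) ++
    ((List.range (3 * φ.length)).flatMap (fun x => (List.range (bt φ)).flatMap fun j =>
      [((2, x, 0), (3, x, j)), ((2, x, 1), (3, x, j))]) ++
    φ.zipIdx.flatMap (fun p => [((2, p.1.1.2, sg p.1.1.1), (4, p.2, 0)),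
      ((2, p.1.2.1.2, sg p.1.2.1.1), (4, p.2, 0)), ((2, p.1.2.2.2, sg p.1.2.2.1), (4, p.2, 0))])))

theorem mem_vs {φ : List Cl} {u : Nm} : u ∈ vs φ ↔ u = (0, 0, 0) ∨ (∃ i < bl φ, u = (1, i, 0)) ∨
    (∃ x < 3 * φ.length, ∃ s, u = (2, x, sg s)) ∨ (∃ x < 3 * φ.length, ∃ j < bt φ, u = (3, x, j)) ∨
    (∃ c < φ.length, u = (4, c, 0)) := by
  simp only [vs, List.mem_append, List.mem_flatMap, List.mem_range, List.mem_map, List.mem_cons,
    List.not_mem_nil, or_false, Bool.exists_bool, sg, cond_true, cond_false]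
  constructor
  · rintro (h | ⟨i, hi, h⟩ | h | ⟨x, hx, j, hj, h⟩ | ⟨c, hc, h⟩)
    · exact Or.inl h
    · exact Or.inr (Or.inl ⟨i, hi, h.symm⟩)
    · exact Or.inr (Or.inr (Or.inl h))
    · exact Or.inr (Or.inr (Or.inr (Or.inl ⟨x, hx, j, hj, h.symm⟩)))
    · exact Or.inr (Or.inr (Or.inr (Or.inr ⟨c, hc, h.symm⟩)))
  · rintro (h | ⟨i, hi, h⟩ | h | ⟨x, hx, j, hj, h⟩ | ⟨c, hc, h⟩)
    · exact Or.inl h
    · exact Or.inr (Or.inl ⟨i, hi, h.symm⟩)
    · exact Or.inr (Or.inr (Or.inl h))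
    · exact Or.inr (Or.inr (Or.inr (Or.inl ⟨x, hx, j, hj, h.symm⟩)))
    · exact Or.inr (Or.inr (Or.inr (Or.inr ⟨c, hc, h.symm⟩)))

/-- the literal is in the clause -/
def InCl (l : Lit ℕ) (c : Cl) : Prop := l = c.1 ∨ l = c.2.1 ∨ l = c.2.2

theorem mem_es {φ : List Cl} {u v : Nm} : (u, v) ∈ es φ ↔
    (u = (0, 0, 0) ∧ ∃ i < bl φ, v = (1, i, 0)) ∨
    (u = (0, 0, 0) ∧ ∃ x < 3 * φ.length, ∃ s, v = (2, x, sg s)) ∨
    (∃ x < 3 * φ.length, ∃ s, u = (2, x, sg s) ∧ ∃ j < bt φ, v = (3, x, j)) ∨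
    (∃ x s, u = (2, x, sg s) ∧ ∃ c d, φ[c]? = some d ∧ InCl (s, x) d ∧ v = (4, c, 0)) := by
  simp only [es, List.mem_append, List.mem_flatMap, List.mem_range, List.mem_map, List.mem_cons,
    List.not_mem_nil, or_false, Prod.mk.injEq, List.mem_zipIdx_iff_getElem?]
  constructor
  · rintro (⟨i, hi, h⟩ | ⟨x, hx, h⟩ | ⟨x, hx, j, hj, h⟩ | ⟨⟨d, c⟩, hd, h⟩)
    · exact Or.inl ⟨h.1.symm, i, hi, h.2.symm⟩
    · refine Or.inr (Or.inl ?_)
      rcases h with h | h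
      · exact ⟨h.1, x, hx, false, h.2⟩
      · exact ⟨h.1, x, hx, true, h.2⟩
    · refine Or.inr (Or.inr (Or.inl ?_))
      rcases h with h | h
      · exact ⟨x, hx, false, h.1, j, hj, h.2⟩
      · exact ⟨x, hx, true, h.1, j, hj, h.2⟩
    · refine Or.inr (Or.inr (Or.inr ?_))
      rcases h with h | h | h
      · exact ⟨_, _, h.1, c, d, hd, Or.inl rfl, h.2⟩
      · exact ⟨_, _, h.1, c, d, hd, Or.inr (Or.inl rfl), h.2⟩
      · exact ⟨_, _, h.1, c, d, hd, Or.inr (Or.inr rfl), h.2⟩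
  · rintro (⟨rfl, i, hi, rfl⟩ | ⟨rfl, x, hx, s, rfl⟩ | ⟨x, hx, s, rfl, j, hj, rfl⟩ |
      ⟨x, s, rfl, c, d, hd, h, rfl⟩)
    · exact Or.inl ⟨i, hi, rfl, rfl⟩
    · refine Or.inr (Or.inl ⟨x, hx, ?_⟩)
      cases s
      · exact Or.inl ⟨rfl, rfl⟩
      · exact Or.inr ⟨rfl, rfl⟩
    · refine Or.inr (Or.inr (Or.inl ⟨x, hx, j, hj, ?_⟩))
      cases s
      · exact Or.inl ⟨rfl, rfl⟩
      · exact Or.inr ⟨rfl, rfl⟩
    · refine Or.inr (Or.inr (Or.inr ⟨(d, c), hd, ?_⟩))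
      rcases h with h | h | h
      · refine Or.inl ⟨?_, rfl⟩
        rw [← h]
      · refine Or.inr (Or.inl ⟨?_, rfl⟩)
        rw [← h]
      · refine Or.inr (Or.inr ⟨?_, rfl⟩)
        rw [← h]

theorem sg_inj {s t : Bool} (h : sg s = sg t) : s = t := by
  cases s <;> cases t <;> simp [sg] at *

theorem inCl_lt {φ : List Cl} (hb : Bounded3 φ) {c : ℕ} {d : Cl} (hd : φ[c]? = some d) {s : Bool}
    {x : ℕ} (h : InCl (s, x) d) : x < 3 * φ.length := by
  have h1 := hb d (List.mem_of_getElem? hd)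
  rcases h with h | h | h
  · have : x = d.1.2 := by rw [← h]
    omega
  · have : x = d.2.1.2 := by rw [← h]
    omega
  · have : x = d.2.2.2 := by rw [← h]
    omega

end Pool.Agent.NPC.U19.TD
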